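import Pool.Agent.Helper85.ProC.Goals3

/-! Packet SER. -/

set_option autoImplicit false

namespace Pool.Agent.Helper22.ProC

open Pool.Agent.Helper85.ProP Pool.Agent.Helper30.ProP Pool.Agent.Helper85.ProC

theorem cm_mem_closure {Q : Type*} [Group Q] [TopologicalSpace Q] [IsTopologicalGroup Q]
    (i : ℕ) {a b : Q} (ha : a ∈ (derivedSeries Q i).topologicalClosure)
    (hb : b ∈ (derivedSeries Q i).topologicalClosure) :
    cm a b ∈ (derivedSeries Q (i + 1)).topologicalClosure := by
  have hc : Continuous (Function.uncurry (fun a b : Q => cm a b)) := by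
    unfold Function.uncurry cm
    fun_prop
  have h := map_mem_closure₂ (s := (derivedSeries Q i : Set Q)) (t := (derivedSeries Q i : Set Q))
    (u := (derivedSeries Q (i + 1) : Set Q)) hc ha hb (fun x hx y hy => by
      have h1 := Subgroup.commutator_mem_commutator (H₁ := derivedSeries Q i)
        (H₂ := derivedSeries Q i) hx hy
      rw [commutatorElement_def] at h1
      exact h1)
  exact h

theorem stmtSer.{u} : StmtSer.{u} := by
  classical
  intro G _ _ _ _ _ _ U N _ hU hN hNnil hsol hfr W hWU hW
  set inc : W →* U := Subgroup.inclusion hWU with hinc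
  have hincc : Continuous inc := by
    apply Continuous.subtype_mk
    exact continuous_subtype_val
  have : CompactSpace W := isCompact_iff_compactSpace.1 (W.isClosed_of_isOpen hW).isCompact
  have hN' : IsClosed (N : Set U) := hN
  have : T2Space (U ⧸ N) := inferInstance
  set f : W →* (U ⧸ N) := (QuotientGroup.mk' N).comp inc with hf
  have hfc : Continuous f := by
    have h1 : Continuous (QuotientGroup.mk' N) := QuotientGroup.continuous_mk
    exact h1.comp hincc
  have hker : N.comap inc = f.ker := by
    rw [hf, ← MonoidHom.comap_ker, QuotientGroup.ker_mk']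
  obtain ⟨n, hn⟩ := hsol.solvable
  set E : ℕ → Subgroup (U ⧸ N) := fun i => (derivedSeries (U ⧸ N) i).topologicalClosure with hE
  have hEn : E n = ⊥ := by
    rw [hE]
    simp only
    rw [hn]
    apply SetLike.coe_injective
    rw [Subgroup.topologicalClosure_coe]
    simp
  have hE0 : E 0 = ⊤ := by
    rw [hE]
    simp only
    rw [derivedSeries_zero, eq_top_iff]
    exact Subgroup.le_topologicalClosure _
  have hEnorm : ∀ i, (E i).Normal := fun i => Subgroup.is_normal_topologicalClosure _
  have hEclosed : ∀ i, IsClosed (E i : Set (U ⧸ N)) := fun i =>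
    Subgroup.isClosed_topologicalClosure _
  refine ⟨N.comap inc, inferInstance, hN.preimage hincc, ?_, n, fun i => (E (n - i)).comap f, ?_,
    ?_, ?_, ?_⟩
  · set φ : N.comap inc →* N := (inc.comp (N.comap inc).subtype).codRestrict N
      (fun x => x.2) with hφ
    have hinj : Function.Injective φ := by
      intro x y hxy
      have h1 := congrArg (Subtype.val) hxy
      have h2 : inc (x : W) = inc (y : W) := h1
      have h3 : (x : W) = (y : W) := Subgroup.inclusion_injective hWU h2
      exact Subtype.ext h3
    have hk : φ.ker ≤ Subgroup.center (N.comap inc) := by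
      rw [(MonoidHom.ker_eq_bot_iff _).2 hinj]
      exact bot_le
    exact Subgroup.isNilpotent_of_ker_le_center φ hk
  · simp only [Nat.sub_zero]
    rw [hEn, hker]
    rfl
  · simp only [Nat.sub_self]
    rw [hE0]
    rfl
  · intro i
    refine ⟨?_, (hEclosed _).preimage hfc⟩
    have := hEnorm (n - i)
    exact Subgroup.normal_comap f
  · intro i hi
    have e1 : n - i = (n - (i + 1)) + 1 := by omega
    have hle : E (n - i) ≤ E (n - (i + 1)) := by
      intro x hx
      have h1 : (derivedSeries (U ⧸ N) (n - i) : Set (U ⧸ N)) ⊆
          (derivedSeries (U ⧸ N) (n - (i + 1)) : Set (U ⧸ N)) :=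
        derivedSeries_antitone (U ⧸ N) (by omega)
      exact closure_mono h1 hx
    refine ⟨fun x hx => hle hx, ?_, ?_⟩
    · intro a ha b hb
      have h1 : f (cm a b) = cm (f a) (f b) := by
        unfold cm
        simp only [map_mul, map_inv]
      show f (cm a b) ∈ E (n - i)
      rw [h1, e1]
      exact cm_mem_closure _ ha hb
    · set L : Subgroup W := (E (n - (i + 1))).comap f with hL
      have hLc : IsClosed (L : Set W) := (hEclosed _).preimage hfc
      have hX : IsClosed ((L.map f : Subgroup (U ⧸ N)) : Set (U ⧸ N)) := by
        rw [Subgroup.coe_map]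
        exact (hLc.isCompact.image hfc).isClosed
      obtain ⟨r, hr⟩ := hfr
      obtain ⟨x, hx⟩ := hr (L.map f) hX
      have hxm : ∀ j, x j ∈ L.map f := by
        intro j
        rw [← hx]
        exact Subgroup.le_topologicalClosure _ (Subgroup.subset_closure ⟨j, rfl⟩)
      choose y hy1 hy2 using fun j => Subgroup.mem_map.1 (hxm j)
      refine ⟨Finset.univ.image y, ?_, ?_⟩
      · intro w hw
        simp only [Finset.coe_image, Finset.coe_univ, Set.image_univ, Set.mem_range] at hw
        obtain ⟨j, rfl⟩ := hw
        exact hy1 j
      · intro H hH hKH hFH w hw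
        have hHc : IsClosed ((H.map f : Subgroup (U ⧸ N)) : Set (U ⧸ N)) := by
          rw [Subgroup.coe_map]
          exact (hH.isCompact.image hfc).isClosed
        have h1 : L.map f ≤ H.map f := by
          rw [← hx]
          apply Subgroup.topologicalClosure_minimal _ _ hHc
          rw [Subgroup.closure_le]
          rintro _ ⟨j, rfl⟩
          refine ⟨y j, hFH ?_, hy2 j⟩
          simp
        obtain ⟨h, hh, hhw⟩ := h1 (Subgroup.mem_map_of_mem f hw)
        have h2 : h⁻¹ * w ∈ H := by
          apply hKH
          show f (h⁻¹ * w) ∈ E (n - i)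
          rw [map_mul, map_inv, hhw, inv_mul_cancel]
          exact one_mem _
        have h3 := H.mul_mem hh h2
        rwa [mul_inv_cancel_left] at h3

end Pool.Agent.Helper22.ProC
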